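import Mathlib
import Pool.Agent.Y679.Cr.Tails
import Pool.Agent.TH498.CO.Lim

/-! The curves with full rational 2-torsion ordered by the conductor, without a bound of the
discriminant, and all their quadratic twists: one set of density zero off which all the moments are
bounded, uniformly in the twist (after `Pool.Agent.Y679.Cr.Tails`, from `Pool.Agent.TH498.CO.lims`). -/

set_option autoImplicit false

namespace Pool.Agent.Q17.CO

open Filter Finset Topology Pool.Agent.H925R.Szpiro Pool.Agent.W307.RT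
open Pool.Agent.TH841.SH (Bd)
open Pool.Agent.Y679.Cr
open Pool.Agent.Results.MP_6073f3_nt

/-- **one exceptional set for all the twists and all the moments, by the conductor** -/
theorem con {P : ℤ × ℤ → Prop} (hP : Good P) : ∃ (n : ℤ → ℤ × ℤ → ℝ) (X : Set (ℤ × ℤ)),
    (∀ c, P c → (∀ d : ℤ, d ≠ 0 → Bd (Sh (d ^ 2 * c.1) (d ^ 3 * c.2)) (n d c)) ∧
      ∃ e1 e2 e3 : ℤ, ∀ x : ℤ, x ^ 3 + c.1 * x + c.2 = (x - e1) * (x - e2) * (x - e3)) ∧
    (∀ f : ℤ × ℤ → ℕ, Bdd f →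
      Tendsto (fun Z : ℕ => ((Gm P f Z ∩ X).ncard : ℝ) / (Gm P f Z).ncard) atTop (𝓝 0)) ∧
    ∀ θ : ℝ, 0 < θ → ∀ A : ℝ, 0 ≤ A → ∃ C : ℝ, 0 ≤ C ∧ ∀ f : ℤ × ℤ → ℕ, Bdd f → ∀ Z : ℕ,
      ∀ S : Finset (ℤ × ℤ), (S : Set (ℤ × ℤ)) ⊆ Gm P f Z \ X → ∀ d : ℤ, d ≠ 0 →
      (d.natAbs : ℝ) ≤ (Z : ℝ) ^ A →
      ∑ c ∈ S, n d c ^ θ ≤
        C * (16 * 512 ^ θ) ^ d.natAbs.primeFactors.card * ((Gm P f Z).ncard : ℝ) := by
  classical
  obtain ⟨n, X0, hn, hdens, hmom⟩ := Pool.Agent.TH498.CO.lims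
  obtain ⟨C0, hC0, hup0⟩ := Pool.Agent.TH498.CO.fc_upper 3 (by norm_num)
  have hCL : ∀ f : ℤ × ℤ → ℕ, Bdd f → Pool.Agent.TH498.CO.CL (ct f) := fun f hf => ct_ok hf
  have hFc : ∀ (f : ℤ × ℤ → ℕ) (N : ℝ), Fc f N = Pool.Agent.TH498.CO.Fc (ct f) 3 N :=
    fun _ _ => rfl
  have hup : ∀ f : ℤ × ℤ → ℕ, Bdd f → ∀ N : ℝ, 4 * 10 ^ 7 ≤ N → (Fc f N).Finite ∧
      ((Fc f N).ncard : ℝ) ≤ C0 * N ^ ((2 : ℝ) / 3) := by
    intro f hf N hN
    have h1 := (Pool.Agent.TH498.CO.fc_fin (hCL f hf) (K := 3) (by norm_num) hN).1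
    rw [← hFc] at h1
    refine ⟨h1, ?_⟩
    have h2 := hup0 (ct f) (hCL f hf) N hN h1.toFinset (by rw [Set.Finite.coe_toFinset, hFc])
    rwa [← Set.ncard_eq_toFinset_card _ h1] at h2
  refine ⟨fun d c => n d (nu c), {c | nu c ∈ X0} ∪ Tp, ?_, ?_, ?_⟩
  · intro c hc
    obtain ⟨h1, h2⟩ := hP.ok c hc
    obtain ⟨h3, e1, e2, e3, h4⟩ := hn (nu c) h1 h2
    refine ⟨fun d hd => ?_, e1, e2, e3, fun x => ?_⟩
    · have h5 := h3 d hd
      unfold nu at h5 ⊢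
      simpa only [neg_neg] using h5
    · have h5 := h4 x
      unfold nu at h5
      simpa only [neg_neg] using h5
  · intro f hf
    obtain ⟨R, hR, hcmp⟩ := compare hP hf ⟨C0, hup f hf⟩
    have htp := Tp_zero hP hf
    have hpr : Tendsto (ConductorTails.proportion (ct f) 3 X0) atTop (𝓝 0) := by
      rw [Metric.tendsto_atTop]
      intro ε hε
      obtain ⟨N0, hN0, h⟩ := hdens 3 (by norm_num) (ε / 2) (half_pos hε)
      refine ⟨N0, fun N hN => ?_⟩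
      obtain ⟨g1, -⟩ := hup f hf N (hN0.trans hN)
      obtain ⟨S, hS⟩ : ∃ S : Finset (ℤ × ℤ), (S : Set (ℤ × ℤ)) = ConductorTails.Fam (ct f) 3 N :=
        ⟨g1.toFinset, Set.Finite.coe_toFinset _⟩
      have h1 := h (ct f) (hCL f hf) N hN S hS
      rw [Real.dist_eq, sub_zero, abs_of_nonneg (ConductorTails.proportion_nonneg _ _ _ _),
        ConductorTails.proportion_eq hS]
      rcases Nat.eq_zero_or_pos S.card with h2 | h2
      · rw [h2]
        simpa using hε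
      · have h3 : (0 : ℝ) < S.card := by exact_mod_cast h2
        rw [div_lt_iff₀ h3]
        calc _ ≤ ε / 2 * S.card := h1
          _ < ε * S.card := mul_lt_mul_of_pos_right (half_lt_self hε) h3
    have h1 : Tendsto (fun Z : ℕ => R * ConductorTails.proportion (ct f) 3 X0 Z +
        2 * (((Gm P f Z ∩ Tp).ncard : ℝ) / (Gm P f Z).ncard)) atTop (𝓝 0) := by
      have h2 := ((hpr.comp tendsto_natCast_atTop_atTop).const_mul R).add (htp.const_mul 2)
      simpa using h2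
    refine squeeze_zero' (Eventually.of_forall fun Z => by positivity) ?_ h1
    filter_upwards [hcmp] with Z hZ
    have h3 := hZ X0 {c | nu c ∈ X0} (fun c hc _ => hc)
    have h4 : ((Gm P f Z ∩ ({c | nu c ∈ X0} ∪ Tp)).ncard : ℝ) ≤
        ((Gm P f Z ∩ {c | nu c ∈ X0}).ncard : ℝ) + ((Gm P f Z ∩ Tp).ncard : ℝ) := by
      rw [Set.inter_union_distrib_left]
      exact_mod_cast Set.ncard_union_le _ _
    have h5 := div_le_div_of_nonneg_right h4 (Nat.cast_nonneg (α := ℝ) (Gm P f Z).ncard)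
    rw [add_div] at h5
    linarith
  · intro θ hθ A hA
    obtain ⟨C, hC, hmo⟩ := hmom θ hθ 3 A (by norm_num) hA
    obtain ⟨c0, hc0, hall⟩ := Gm_all hP (4 * 10 ^ 7)
    refine ⟨C * C0 / c0, by positivity, fun f hf Z S hS d hd hdZ => ?_⟩
    set Q : ℝ := (16 * 512 ^ θ) ^ d.natAbs.primeFactors.card with hQ
    have hQ0 : 0 ≤ Q := by positivity
    rcases S.eq_empty_or_nonempty with hSe | hSn
    · rw [hSe, sum_empty]
      positivity
    have hne : (Gm P f Z).Nonempty := by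
      obtain ⟨c, hc⟩ := hSn
      exact ⟨c, (hS (mem_coe.2 hc)).1⟩
    obtain ⟨N, hN⟩ : ∃ N : ℕ, N = max Z (4 * 10 ^ 7) := ⟨_, rfl⟩
    have hN1 : (4 * 10 ^ 7 : ℝ) ≤ (N : ℝ) := by
      rw [hN]
      exact_mod_cast le_max_right Z (4 * 10 ^ 7)
    have hN2 : (Z : ℝ) ≤ (N : ℝ) := by
      rw [hN]
      exact_mod_cast le_max_left Z (4 * 10 ^ 7)
    have h1 := hall f hf Z hne
    rw [← hN] at h1
    obtain ⟨g1, g3⟩ := hup f hf N hN1
    obtain ⟨S', hS'⟩ : ∃ S' : Finset (ℤ × ℤ), (S' : Set (ℤ × ℤ)) = Fc f N :=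
      ⟨g1.toFinset, Set.Finite.coe_toFinset _⟩
    have h2 := hmo (ct f) (hCL f hf) N hN1 S' (by rw [hS', hFc]) d hd
      (hdZ.trans (Real.rpow_le_rpow (Nat.cast_nonneg _) hN2 hA))
    have hpos : ∀ q ∈ S', 0 ≤ n d q := by
      intro q hq
      have h3 : q ∈ Fc f N := by rw [← hS']; exact mem_coe.2 hq
      have h4 := (hn q h3.1 h3.2.1).1 d hd
      exact le_trans (by positivity) h4.2
    have h3 : ∑ c ∈ S, n d (nu c) ^ θ ≤ ∑ q ∈ S'.filter (fun q => q ∉ X0), n d q ^ θ := by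
      have h4 : S.image nu ⊆ S'.filter (fun q => q ∉ X0) := by
        intro q hq
        obtain ⟨c, hc, rfl⟩ := mem_image.1 hq
        obtain ⟨h6, h7⟩ := hS (mem_coe.2 hc)
        rw [mem_filter, ← mem_coe, hS']
        exact ⟨mem_Fc hP hf hN2 h6 fun h => h7 (Or.inr h), fun h => h7 (Or.inl h)⟩
      refine le_trans (le_of_eq ?_) (sum_le_sum_of_subset_of_nonneg h4 fun q hq _ =>
        Real.rpow_nonneg (hpos q (mem_filter.1 hq).1) θ)
      rw [sum_image fun a _ b _ h => nu_inj h]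
    refine h3.trans (h2.trans ?_)
    have h5 : (S'.card : ℝ) ≤ C0 * (N : ℝ) ^ ((2 : ℝ) / 3) := by
      rw [← hS', Set.ncard_coe_finset] at g3
      exact g3
    have hC' : 0 ≤ C := by linarith
    calc C * Q * (S'.card : ℝ)
        ≤ C * Q * (C0 * (N : ℝ) ^ ((2 : ℝ) / 3)) :=
          mul_le_mul_of_nonneg_left h5 (by positivity)
      _ = C * C0 / c0 * Q * (c0 * (N : ℝ) ^ ((2 : ℝ) / 3)) := by
          field_simp
      _ ≤ _ := mul_le_mul_of_nonneg_left h1 (by positivity)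

end Pool.Agent.Q17.CO
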